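import Pool.Agent.W133.DQ.StB

set_option autoImplicit false

open scoped ContDiff
open Set Filter Topology

namespace Pool.Agent.W918.DQ

open Pool.Agent.W133.DQ

/-- Lipschitz with constant `a`. -/
def LB (u : P2 → ℝ) (a : ℝ) : Prop := ∀ p q : P2, |u p - u q| ≤ a * ‖p - q‖

theorem LB.mono {u : P2 → ℝ} {a b : ℝ} (h : LB u a) (hab : a ≤ b) : LB u b := fun p q =>
  (h p q).trans (mul_le_mul_of_nonneg_right hab (norm_nonneg _))

theorem LB_of_NB {u : P2 → ℝ} {a : ℝ} (hu : ContDiff ℝ ∞ u) (h : NB 1 u a) : LB u a := by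
  intro p q
  have hb : ∀ x, ‖fderiv ℝ u x‖ ≤ a := fun x => by
    rw [← norm_iteratedFDeriv_one]; exact h x
  have := Convex.norm_image_sub_le_of_norm_fderiv_le (𝕜 := ℝ) (f := u) (s := univ)
    (fun x _ => hu.differentiable (by simp) x) (fun x _ => hb x) convex_univ
    (mem_univ q) (mem_univ p)
  simpa [Real.norm_eq_abs] using this

theorem NB_of_LB {u : P2 → ℝ} {a : ℝ} (ha : 0 ≤ a) (h : LB u a) : NB 1 u a := by
  intro p
  rw [norm_iteratedFDeriv_one]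
  have hl : LipschitzWith ⟨a, ha⟩ u := LipschitzWith.of_dist_le_mul fun x y => by
    rw [Real.dist_eq, dist_eq_norm]; exact h x y
  exact norm_fderiv_le_of_lipschitz ℝ hl

theorem fst_le (p : P2) : |p.1| ≤ ‖p‖ := norm_fst_le p
theorem snd_le (p : P2) : |p.2| ≤ ‖p‖ := norm_snd_le p

theorem nrm_le {x y c : ℝ} (hx : |x| ≤ c) (hy : |y| ≤ c) : ‖((x, y) : P2)‖ ≤ c := by
  rw [Prod.norm_def]; exact max_le hx hy

/-- the Lipschitz constant of a smooth real function with bounded derivative -/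
theorem lip1 {η : ℝ → ℝ} {K : ℝ} (hη : ContDiff ℝ ∞ η)
    (hK : ∀ x, ‖iteratedFDeriv ℝ 1 η x‖ ≤ K) (x y : ℝ) : |η x - η y| ≤ K * |x - y| := by
  have hb : ∀ x, ‖fderiv ℝ η x‖ ≤ K := fun x => by
    rw [← norm_iteratedFDeriv_one]; exact hK x
  have := Convex.norm_image_sub_le_of_norm_fderiv_le (𝕜 := ℝ) (f := η) (s := univ)
    (fun x _ => hη.differentiable (by simp) x) (fun x _ => hb x) convex_univ
    (mem_univ y) (mem_univ x)
  simpa [Real.norm_eq_abs] using this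

theorem sup_of_box {W : P2 → ℝ} {B δ : ℝ} (hδ : 0 ≤ δ) (hs : SuppBox 1 B W) (h : LB W δ) (p : P2) :
    |W p| ≤ 2 * δ := by
  by_cases hp : 1 ≤ |p.1|
  · rw [hs p (Or.inl hp), abs_zero]; linarith
  · push Not at hp
    have h1 : W (1, p.2) = 0 := hs (1, p.2) (Or.inl (by simp))
    have h2 := h p (1, p.2)
    rw [h1, sub_zero] at h2
    have h3 : ‖p - (1, p.2)‖ ≤ 2 := by
      have : p - (1, p.2) = ((p.1 - 1, 0) : P2) := by ext <;> simp
      rw [this]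
      have := abs_lt.1 hp
      exact nrm_le (abs_le.2 ⟨by linarith, by linarith⟩) (by simp)
    nlinarith

theorem LB_mul {W : P2 → ℝ} {η : ℝ → ℝ} {K a s : ℝ} (hK : 0 ≤ K) (h1 : ∀ y, |η y| ≤ 1)
    (hη : ∀ x y, |η x - η y| ≤ K * |x - y|) (hW : LB W a) (hs : ∀ p, |W p| ≤ s) :
    LB (fun p => η p.2 * W p) (a + K * s) := by
  intro p q
  have e : η p.2 * W p - η q.2 * W q = η p.2 * (W p - W q) + (η p.2 - η q.2) * W q := by ring
  simp only
  rw [e]
  have h2 : |η p.2 * (W p - W q)| ≤ a * ‖p - q‖ := by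
    rw [abs_mul]
    calc |η p.2| * |W p - W q| ≤ 1 * |W p - W q| :=
          mul_le_mul_of_nonneg_right (h1 _) (abs_nonneg _)
      _ ≤ a * ‖p - q‖ := by rw [one_mul]; exact hW p q
  have h3 : |(η p.2 - η q.2) * W q| ≤ K * s * ‖p - q‖ := by
    rw [abs_mul]
    have h4 : |η p.2 - η q.2| ≤ K * ‖p - q‖ :=
      (hη _ _).trans (mul_le_mul_of_nonneg_left (snd_le (p - q)) hK)
    calc |η p.2 - η q.2| * |W q| ≤ (K * ‖p - q‖) * s :=
          mul_le_mul h4 (hs q) (abs_nonneg _) (by positivity)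
      _ = K * s * ‖p - q‖ := by ring
  calc _ ≤ |η p.2 * (W p - W q)| + |(η p.2 - η q.2) * W q| := abs_add_le _ _
    _ ≤ a * ‖p - q‖ + K * s * ‖p - q‖ := add_le_add h2 h3
    _ = (a + K * s) * ‖p - q‖ := by ring

theorem LB_shift {W : P2 → ℝ} {a : ℝ} (hW : LB W a) (c : ℝ) :
    LB (fun p => W (p.1, p.2 + c)) a := by
  intro p q
  have := hW (p.1, p.2 + c) (q.1, q.2 + c)
  have e : ((p.1, p.2 + c) : P2) - (q.1, q.2 + c) = p - q := by ext <;> simp
  rwa [e] at this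

theorem LB_star {u v : P2 → ℝ} {a b : ℝ} (ha : 0 ≤ a) (hb : 0 ≤ b) (hu : LB u a) (hv : LB v b) :
    LB (star u v) (b + a * (1 + b)) := by
  intro p q
  unfold Pool.Agent.W133.DQ.star
  have h1 := hv p q
  have h2 := hu (p.1 + v p, p.2) (q.1 + v q, q.2)
  have h3 : ‖((p.1 + v p, p.2) : P2) - (q.1 + v q, q.2)‖ ≤ (1 + b) * ‖p - q‖ := by
    have e : ((p.1 + v p, p.2) : P2) - (q.1 + v q, q.2) = (p.1 - q.1 + (v p - v q), p.2 - q.2) := by
      ext <;> simp; ring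
    rw [e]
    have hf : |p.1 - q.1| ≤ ‖p - q‖ := fst_le (p - q)
    have hs : |p.2 - q.2| ≤ ‖p - q‖ := snd_le (p - q)
    refine nrm_le ((abs_add_le _ _).trans ?_) (hs.trans ?_)
    · linarith
    · nlinarith [norm_nonneg (p - q)]
  have h4 : a * ‖((p.1 + v p, p.2) : P2) - (q.1 + v q, q.2)‖ ≤ a * ((1 + b) * ‖p - q‖) :=
    mul_le_mul_of_nonneg_left h3 ha
  have e : v p + u (p.1 + v p, p.2) - (v q + u (q.1 + v q, q.2)) =
      (v p - v q) + (u (p.1 + v p, p.2) - u (q.1 + v q, q.2)) := by ring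
  rw [e]
  refine (abs_add_le _ _).trans ?_
  nlinarith

theorem diff_star {u v u' v' : P2 → ℝ} {a d d' : ℝ} (ha : 0 ≤ a) (hu : LB u a)
    (h1 : ∀ p, |u p - u' p| ≤ d) (h2 : ∀ p, |v p - v' p| ≤ d') (p : P2) :
    |star u v p - star u' v' p| ≤ (1 + a) * d' + d := by
  unfold Pool.Agent.W133.DQ.star
  have h3 := h2 p
  have h4 := h1 (p.1 + v' p, p.2)
  have h5 := hu (p.1 + v p, p.2) (p.1 + v' p, p.2)
  have h6 : ‖((p.1 + v p, p.2) : P2) - (p.1 + v' p, p.2)‖ ≤ d' := by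
    have e : ((p.1 + v p, p.2) : P2) - (p.1 + v' p, p.2) = (v p - v' p, 0) := by
      ext <;> simp
    rw [e]
    exact nrm_le h3 (by simpa using (abs_nonneg _).trans h3)
  have h7 := mul_le_mul_of_nonneg_left h6 ha
  have e : v p + u (p.1 + v p, p.2) - (v' p + u' (p.1 + v' p, p.2)) =
      (v p - v' p) + (u (p.1 + v p, p.2) - u (p.1 + v' p, p.2)) +
        (u (p.1 + v' p, p.2) - u' (p.1 + v' p, p.2)) := by ring
  rw [e]
  refine (abs_add_three _ _ _).trans ?_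
  linarith

theorem LB_chain {w : ℕ → P2 → ℝ} (h : ∀ i, LB (w i) 1) : ∀ m, LB (chain w m) (2 ^ m - 1)
  | 0 => by intro p q; simp [chain]
  | m + 1 => by
    have h1 := LB_chain h m
    have h2 : (0 : ℝ) ≤ 2 ^ m - 1 := by
      have : (1 : ℝ) ≤ 2 ^ m := one_le_pow₀ (by norm_num)
      linarith
    have := LB_star (by norm_num) h2 (h m) h1
    refine this.mono ?_
    rw [pow_succ]; linarith

theorem diff_chain {w w' : ℕ → P2 → ℝ} {d : ℝ} (h : ∀ i, LB (w i) 1)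
    (hd : ∀ i p, |w i p - w' i p| ≤ d) : ∀ m p, |chain w m p - chain w' m p| ≤ (2 ^ m - 1) * d
  | 0, p => by simp [chain]
  | m + 1, p => by
    have := diff_star (by norm_num) (h m) (hd m) (diff_chain h hd m) p
    refine this.trans ?_
    rw [pow_succ]; apply le_of_eq; ring

theorem LB_nv (hn : S_NV) {u : P2 → ℝ} {a : ℝ} (hu : ContDiff ℝ ∞ u) (ha : 0 ≤ a)
    (ha2 : a ≤ 1 / 2) (h : LB u a) (hb : ∃ C, ∀ p, |u p| ≤ C) : LB (nv u) (2 * a) := by
  obtain ⟨-, heq, -⟩ := hn.2.2.1 u hu (NB_of_LB (by norm_num) (h.mono ha2)) hb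
  intro p q
  have h1 := heq p
  have h2 := heq q
  have h3 := h (p.1 + nv u p, p.2) (q.1 + nv u q, q.2)
  have h4 : ‖((p.1 + nv u p, p.2) : P2) - (q.1 + nv u q, q.2)‖ ≤ ‖p - q‖ + |nv u p - nv u q| := by
    have e : ((p.1 + nv u p, p.2) : P2) - (q.1 + nv u q, q.2) =
        (p.1 - q.1 + (nv u p - nv u q), p.2 - q.2) := by
      ext <;> simp; ring
    rw [e]
    have hf : |p.1 - q.1| ≤ ‖p - q‖ := fst_le (p - q)
    have hs : |p.2 - q.2| ≤ ‖p - q‖ := snd_le (p - q)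
    refine nrm_le ((abs_add_le _ _).trans (by linarith)) (hs.trans ?_)
    linarith [abs_nonneg (nv u p - nv u q)]
  have h5 : |nv u p - nv u q| = |u (p.1 + nv u p, p.2) - u (q.1 + nv u q, q.2)| := by
    rw [show nv u p - nv u q = -(u (p.1 + nv u p, p.2) - u (q.1 + nv u q, q.2)) by linarith,
      abs_neg]
  have h6 := mul_le_mul_of_nonneg_left h4 ha
  have h7 : |nv u p - nv u q| ≤ a * (‖p - q‖ + |nv u p - nv u q|) := by
    rw [h5] at *
    exact h3.trans h6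
  have h8 : a * |nv u p - nv u q| ≤ 1 / 2 * |nv u p - nv u q| :=
    mul_le_mul_of_nonneg_right ha2 (abs_nonneg _)
  linarith

theorem sup_nv (hn : S_NV) {u : P2 → ℝ} (hu : ContDiff ℝ ∞ u)
    (h : LB u (1 / 2)) {C : ℝ} (hb : ∀ p, |u p| ≤ C) (p : P2) : |nv u p| ≤ C :=
  (hn.2.2.1 u hu (NB_of_LB (by norm_num) h) ⟨C, hb⟩).2.2.2.1 C hb p

theorem ylip (hc : S_CUT) (hn : S_NV) : S_YLIP := by
  intro A hA
  obtain ⟨hpl, -, ⟨hthe, hthe1, -⟩, hder⟩ := hc
  obtain ⟨K0, -, hKthe, -, -, hKthe0, hKkap1⟩ := hder 1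
  obtain ⟨hthe0, hthe01, -⟩ := hpl (2 / 5) (4 / 5) (by norm_num) (by norm_num)
  obtain ⟨hkap1, hkap11, -⟩ := hpl (7 / 10) (9 / 10) (by norm_num) (by norm_num)
  have hK : 0 ≤ K0 := (norm_nonneg _).trans (hKthe 0)
  set K := K0
  have l1 := lip1 hthe hKthe
  have l2 : ∀ x y, |the0 x - the0 y| ≤ K * |x - y| := lip1 (η := the0) hthe0 hKthe0
  have l3 : ∀ x y, |kap1 x - kap1 y| ≤ K * |x - y| := lip1 (η := kap1) hkap1 hKkap1
  have b1 : ∀ y, |the y| ≤ 1 := fun y => abs_le.2 ⟨by linarith [(hthe1 y).1], (hthe1 y).2⟩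
  have b2 : ∀ y, |the0 y| ≤ 1 := fun y => abs_le.2 ⟨by
    have := (hthe01 y).1
    change -1 ≤ pl (2 / 5) (4 / 5) y
    linarith, (hthe01 y).2⟩
  have b3 : ∀ y, |kap1 y| ≤ 1 := fun y => abs_le.2 ⟨by
    have := (hkap11 y).1
    change -1 ≤ pl (7 / 10) (9 / 10) y
    linarith, (hkap11 y).2⟩
  set M := 2 * A + 1 with hM
  set δ : ℝ := 1 / (16 * (1 + K)) with hδ
  have hδ0 : 0 < δ := by positivity
  have hδK : (1 + K) * δ = 1 / 16 := by rw [hδ]; field_simp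
  have hKδ : K * δ ≤ 1 / 16 := by nlinarith
  have hδ16 : δ ≤ 1 / 16 := by nlinarith
  have hKδ0 : 0 ≤ K * δ := by positivity
  refine ⟨δ, 2 ^ M * (2 ^ M * 4) + 2 ^ M, hδ0, by positivity, ?_⟩
  intro u v hu hv su sv nu nv' d hd
  have hd0 : 0 ≤ d := (abs_nonneg _).trans (hd 0)
  -- facts for one function
  have key : ∀ W : P2 → ℝ, ContDiff ℝ ∞ W → SuppBox 1 A W → NB 1 W δ →
      ContDiff ℝ ∞ (fun q : P2 => the q.2 * W q) ∧ LB (fun q : P2 => the q.2 * W q) (3 / 16) ∧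
      (∀ p : P2, |the p.2 * W p| ≤ 2 * δ) ∧ LB (nv (fun q : P2 => the q.2 * W q)) (3 / 8) ∧
      (∀ i, LB (evp A W i) 1) ∧ (∀ i, LB (odp A W i) 1) := by
    intro W hW sW nW
    have hL := LB_of_NB hW nW
    have hsup := sup_of_box hδ0.le sW hL
    have c1 : ContDiff ℝ ∞ (fun q : P2 => the q.2 * W q) := (hthe.comp contDiff_snd).mul hW
    have c2 : LB (fun q : P2 => the q.2 * W q) (3 / 16) :=
      (LB_mul hK b1 l1 hL hsup).mono (by nlinarith)
    have c3 : ∀ p : P2, |the p.2 * W p| ≤ 2 * δ := fun p => by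
      rw [abs_mul]
      calc |the p.2| * |W p| ≤ 1 * |W p| := mul_le_mul_of_nonneg_right (b1 _) (abs_nonneg _)
        _ ≤ 2 * δ := by rw [one_mul]; exact hsup p
    have c4 : LB (nv (fun q : P2 => the q.2 * W q)) (3 / 8) :=
      (LB_nv hn c1 (by norm_num) (by norm_num) c2 ⟨_, c3⟩).mono (by norm_num)
    refine ⟨c1, c2, c3, c4, fun i => ?_, fun i => ?_⟩
    · have h1 := LB_mul hK b2 l2 (LB_shift hL (2 * ((i : ℝ) - A)))
        (fun p => hsup (p.1, p.2 + 2 * ((i : ℝ) - A)))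
      refine LB.mono (u := evp A W i) h1 (by nlinarith)
    · have h1 : LB (star (nv (fun q : P2 => the q.2 * W q)) W) (1 / 2) :=
        (LB_star (by norm_num) hδ0.le c4 hL).mono (by nlinarith)
      have h2 : ∀ p, |star (nv (fun q : P2 => the q.2 * W q)) W p| ≤ 4 * δ := by
        intro p
        unfold Pool.Agent.W133.DQ.star
        have e1 := hsup p
        have e2 := sup_nv hn c1 (c2.mono (by norm_num)) c3 (p.1 + W p, p.2)
        refine (abs_add_le _ _).trans (by linarith)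
      have h3 := LB_mul hK b3 l3 (LB_shift h1 (2 * ((i : ℝ) - A) + 1))
        (fun p => h2 (p.1, p.2 + (2 * ((i : ℝ) - A) + 1)))
      refine LB.mono (u := odp A W i) h3 (by nlinarith)
  obtain ⟨cu, Lu, bu, nu', eu, ou⟩ := key u hu su nu
  obtain ⟨cv, Lv, bv, nv'', ev, ov⟩ := key v hv sv nv'
  have hev : ∀ i p, |evp A u i p - evp A v i p| ≤ d := by
    intro i p
    unfold evp
    rw [← mul_sub, abs_mul]
    calc |the0 p.2| * |u (p.1, p.2 + 2 * ((i : ℝ) - A)) - v (p.1, p.2 + 2 * ((i : ℝ) - A))|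
        ≤ 1 * |u (p.1, p.2 + 2 * ((i : ℝ) - A)) - v (p.1, p.2 + 2 * ((i : ℝ) - A))| :=
          mul_le_mul_of_nonneg_right (b2 _) (abs_nonneg _)
      _ ≤ d := by rw [one_mul]; exact hd _
  have hnv : ∀ p, |nv (fun q : P2 => the q.2 * u q) p - nv (fun q : P2 => the q.2 * v q) p| ≤
      2 * d := by
    refine hn.2.2.2 _ _ cu cv (NB_of_LB (by norm_num) (Lu.mono (by norm_num)))
      (NB_of_LB (by norm_num) (Lv.mono (by norm_num))) ⟨_, bu⟩ ⟨_, bv⟩ d ?_
    intro p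
    rw [← mul_sub, abs_mul]
    calc |the p.2| * |u p - v p| ≤ 1 * |u p - v p| :=
          mul_le_mul_of_nonneg_right (b1 _) (abs_nonneg _)
      _ ≤ d := by rw [one_mul]; exact hd _
  have hst : ∀ p, |star (nv (fun q : P2 => the q.2 * u q)) u p -
      star (nv (fun q : P2 => the q.2 * v q)) v p| ≤ 4 * d := by
    intro p
    refine (diff_star (by norm_num) nu' hnv hd p).trans (by linarith)
  have hod : ∀ i p, |odp A u i p - odp A v i p| ≤ 4 * d := by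
    intro i p
    unfold odp
    rw [← mul_sub, abs_mul]
    refine (mul_le_mul (b3 p.2) (hst _) (abs_nonneg _) zero_le_one).trans (by linarith)
  intro p
  have h2M : (1 : ℝ) ≤ 2 ^ M := one_le_pow₀ (by norm_num)
  have f1 := diff_chain eu hev M
  have f2 := diff_chain ou hod M
  have f3 := LB_chain eu M
  have f4 := diff_star (by linarith) f3 f1 f2 p
  unfold SY
  rw [← hM]
  refine f4.trans ?_
  have g1 : (2 ^ M - 1) * d ≤ 2 ^ M * d := mul_le_mul_of_nonneg_right (by linarith) hd0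
  have g2 : (2 ^ M - 1) * (4 * d) ≤ 2 ^ M * (4 * d) :=
    mul_le_mul_of_nonneg_right (by linarith) (by linarith)
  have g3 : (1 + ((2 : ℝ) ^ M - 1)) * ((2 ^ M - 1) * (4 * d)) ≤ 2 ^ M * (2 ^ M * (4 * d)) := by
    rw [show (1 : ℝ) + (2 ^ M - 1) = 2 ^ M by ring]
    exact mul_le_mul_of_nonneg_left g2 (by linarith)
  calc _ ≤ 2 ^ M * (2 ^ M * (4 * d)) + 2 ^ M * d := add_le_add g3 g1
    _ = _ := by ring

end Pool.Agent.W918.DQ
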